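import Mathlib
import Pool.Agent.V7H62.DH.Spec2

/-!
# Tails of multiple zeta values are truncated values of the reversed words modulo shorter words
-/

set_option autoImplicit false

open Filter Finset

namespace Pool.Agent.V7H30.DH

open Pool.Agent.V7H62.DH

/-- Words of positive integers of length less than `d`. -/
def Wd (d : ℕ) : Set (List ℕ) := {v | v.length < d ∧ ∀ n ∈ v, 1 ≤ n}

/-- The span of the truncated values of the words of length less than `d`. -/
noncomputable def Vd (d : ℕ) : Submodule ℝ (ℕ → ℝ) := Submodule.span ℝ (z '' Wd d)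

theorem z_mem (d : ℕ) (v : List ℕ) (h : v.length < d) (h2 : ∀ n ∈ v, 1 ≤ n) : z v ∈ Vd d :=
  Submodule.subset_span ⟨v, ⟨h, h2⟩, rfl⟩

/-- The summation operator. -/
noncomputable def A (n : ℕ) : (ℕ → ℝ) →ₗ[ℝ] (ℕ → ℝ) where
  toFun f := fun N => ∑ k ∈ range N, f (k + 1) / ((k : ℝ) + 1) ^ n
  map_add' f g := by
    funext N
    simp only [Pi.add_apply, add_div, Finset.sum_add_distrib]
  map_smul' c f := by
    funext N
    simp only [Pi.smul_apply, smul_eq_mul, RingHom.id_apply, Finset.mul_sum, mul_div_assoc]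

theorem A_apply (n : ℕ) (f : ℕ → ℝ) (N : ℕ) :
    A n f N = ∑ k ∈ range N, f (k + 1) / ((k : ℝ) + 1) ^ n := rfl

theorem A_nil (n : ℕ) : A n (z []) = z [n] := by
  funext N
  rw [A_apply]
  rfl

theorem A_cons (n m : ℕ) (v : List ℕ) : A n (z (m :: v)) = z (n :: m :: v) + z ((n + m) :: v) := by
  funext N
  rw [A_apply, Pi.add_apply]
  have e1 : z (n :: m :: v) N = ∑ k ∈ range N, z (m :: v) k / ((k : ℝ) + 1) ^ n := rfl
  have e2 : z ((n + m) :: v) N = ∑ k ∈ range N, z v k / ((k : ℝ) + 1) ^ (n + m) := rfl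
  rw [e1, e2, ← Finset.sum_add_distrib]
  refine Finset.sum_congr rfl ?_
  intro k _
  have e3 : z (m :: v) (k + 1) = z (m :: v) k + z v k / ((k : ℝ) + 1) ^ m := by
    simp only [z]
    rw [Finset.sum_range_succ]
  rw [e3, add_div, pow_add, div_div, mul_comm (((k : ℝ) + 1) ^ m)]

/-- `A n (z u)` is `z (n :: u)` plus a shorter word. -/
theorem A_main (n : ℕ) (hn : 1 ≤ n) (u : List ℕ) (hu : ∀ m ∈ u, 1 ≤ m) :
    ∃ h ∈ Vd (u.length + 1), A n (z u) = z (n :: u) + h := by
  cases u with
  | nil => exact ⟨0, Submodule.zero_mem _, by rw [A_nil, add_zero]⟩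
  | cons m v =>
    refine ⟨z ((n + m) :: v), z_mem _ _ ?_ ?_, A_cons n m v⟩
    · simp
    · intro k hk
      rcases List.mem_cons.1 hk with h1 | h1
      · omega
      · exact hu k (List.mem_cons_of_mem _ h1)

theorem Vd_mono {d e : ℕ} (h : d ≤ e) : Vd d ≤ Vd e := by
  refine Submodule.span_mono (Set.image_mono ?_)
  rintro v ⟨h1, h2⟩
  exact ⟨lt_of_lt_of_le h1 h, h2⟩

theorem A_mem (n : ℕ) (hn : 1 ≤ n) (d : ℕ) (f : ℕ → ℝ) (hf : f ∈ Vd d) : A n f ∈ Vd (d + 1) := by
  have h : Vd d ≤ (Vd (d + 1)).comap (A n) := by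
    refine Submodule.span_le.2 ?_
    rintro f ⟨v, ⟨h1, h2⟩, rfl⟩
    obtain ⟨h, hh, he⟩ := A_main n hn v h2
    rw [SetLike.mem_coe, Submodule.mem_comap, he]
    refine Submodule.add_mem _ (z_mem _ _ ?_ ?_) (Vd_mono (by omega) hh)
    · rw [List.length_cons]; omega
    · intro k hk
      rcases List.mem_cons.1 hk with h3 | h3
      · omega
      · exact h2 k h3
  exact h hf

theorem adm_init (w : List ℕ) (n : ℕ) (h : Adm (w ++ [n])) : Adm w ∧ 1 ≤ n := by
  obtain ⟨h1, h2⟩ := h
  refine ⟨⟨fun m hm => h1 m (by simp [hm]), fun m v hv => ?_⟩, h1 n (by simp)⟩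
  refine h2 m (v ++ [n]) ?_
  rw [hv]; rfl

theorem tri_mem (hT : S_TAIL) (w : List ℕ) : Adm w →
    (fun N => t w N - (-1) ^ w.length * z w.reverse N) ∈ Vd w.length := by
  obtain ⟨-, hrec⟩ := hT
  induction w using List.reverseRecOn with
  | nil =>
    intro _
    have : (fun N => t [] N - (-1) ^ ([] : List ℕ).length * z ([] : List ℕ).reverse N)
        = (0 : ℕ → ℝ) := by
      funext N
      simp [t, z]
    rw [this]
    exact Submodule.zero_mem _
  | append_singleton w n ih =>
    intro hw
    obtain ⟨hadm, hn⟩ := adm_init w n hw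
    have ih := ih hadm
    obtain ⟨h, hh, he⟩ := A_main n hn w.reverse (by
      intro m hm
      exact hadm.1 m (List.mem_reverse.1 hm))
    rw [List.length_reverse] at hh
    have hsum : ∀ N, t (w ++ [n]) N = t (w ++ [n]) 0 - A n (t w) N := by
      intro N
      induction N with
      | zero => simp [A_apply]
      | succ N ihN =>
        have h1 := hrec w n hw N
        rw [A_apply, Finset.sum_range_succ, ← A_apply]
        linarith
    have ht : t w = ((-1 : ℝ) ^ w.length) • z w.reverse
        + (fun N => t w N - (-1) ^ w.length * z w.reverse N) := by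
      funext N
      simp [Pi.add_apply, Pi.smul_apply]
    have hA : A n (t w) = ((-1 : ℝ) ^ w.length) • (z (n :: w.reverse) + h)
        + A n (fun N => t w N - (-1) ^ w.length * z w.reverse N) := by
      conv_lhs => rw [ht]
      rw [map_add, map_smul, he]
    have hD : (fun N => t (w ++ [n]) N - (-1) ^ (w ++ [n]).length * z (w ++ [n]).reverse N)
        = (t (w ++ [n]) 0) • z [] - ((-1 : ℝ) ^ w.length) • h
          - A n (fun N => t w N - (-1) ^ w.length * z w.reverse N) := by
      funext N
      rw [hsum N, hA, List.reverse_append, List.length_append]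
      simp only [Pi.add_apply, Pi.sub_apply, Pi.smul_apply, smul_eq_mul, List.reverse_singleton,
        List.singleton_append, List.length_singleton, pow_succ]
      have : z [] N = 1 := rfl
      rw [this]
      ring
    rw [hD]
    have hlen : (w ++ [n]).length = w.length + 1 := by simp
    rw [hlen]
    refine Submodule.sub_mem _ (Submodule.sub_mem _ (Submodule.smul_mem _ _ (z_mem _ _ ?_ ?_))
      (Submodule.smul_mem _ _ hh)) (A_mem n hn _ _ ih)
    · simp
    · simp

theorem t_TRI : S_TRI := by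
  intro hT w hw
  have h := tri_mem hT w hw
  rw [Vd, Finsupp.mem_span_image_iff_linearCombination] at h
  obtain ⟨l, hl, hle⟩ := h
  refine ⟨l.support, l, ?_, ?_⟩
  · intro v hv
    exact hl hv
  · intro N
    have h1 := congrFun hle N
    rw [Finsupp.linearCombination_apply, Finsupp.sum, Finset.sum_apply] at h1
    simp only [Pi.smul_apply, smul_eq_mul] at h1
    rw [h1]
    ring

end Pool.Agent.V7H30.DH
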