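import Mathlib
import Pool.Agent.V7H62.DH.Spec

/-!
# Linear independence of the truncated multiple zeta values over the polynomials
-/

set_option autoImplicit false

open Filter Finset Polynomial

namespace Pool.Agent.V7H30.DH

open Pool.Agent.V7H62.DH

/-- The shift of a polynomial. -/
noncomputable def sh (p : ℝ[X]) : ℝ[X] := p.comp (X + 1)

theorem sh_eval (p : ℝ[X]) (x : ℝ) : (sh p).eval x = p.eval (x + 1) := by
  simp [sh]

theorem sh_zero : sh 0 = 0 := by simp [sh]

theorem sh_add (p q : ℝ[X]) : sh (p + q) = sh p + sh q := by simp [sh]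

theorem sh_mul (p q : ℝ[X]) : sh (p * q) = sh p * sh q := by simp [sh]

theorem sh_C (c : ℝ) : sh (C c) = C c := by simp [sh]

/-- A polynomial which vanishes at all large natural numbers is zero. -/
theorem zero_of_ev (p : ℝ[X]) (h : ∀ᶠ N : ℕ in atTop, p.eval (N : ℝ) = 0) : p = 0 := by
  obtain ⟨N₀, hN⟩ := eventually_atTop.1 h
  refine Polynomial.eq_zero_of_infinite_isRoot p ?_
  have hinf : (Set.range (fun k : ℕ => (((N₀ + k : ℕ)) : ℝ))).Infinite := by
    refine Set.infinite_range_of_injective ?_
    intro a b hab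
    have h2 : ((N₀ + a : ℕ) : ℝ) = ((N₀ + b : ℕ) : ℝ) := hab
    have h3 : N₀ + a = N₀ + b := by exact_mod_cast h2
    omega
  refine hinf.mono ?_
  rintro x ⟨k, rfl⟩
  exact hN (N₀ + k) (by omega)

theorem eq_of_ev (p q : ℝ[X]) (h : ∀ᶠ N : ℕ in atTop, p.eval (N : ℝ) = q.eval (N : ℝ)) : p = q := by
  have h2 : p - q = 0 := by
    refine zero_of_ev _ ?_
    filter_upwards [h] with N hN
    rw [eval_sub, hN, sub_self]
  exact sub_eq_zero.1 h2

theorem ne_ev (p : ℝ[X]) (hp : p ≠ 0) : ∀ᶠ N : ℕ in atTop, p.eval (N : ℝ) ≠ 0 := by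
  have hfin : {x : ℝ | p.IsRoot x}.Finite := by
    by_contra h
    exact hp (Polynomial.eq_zero_of_infinite_isRoot p h)
  obtain ⟨B, hB⟩ := hfin.bddAbove
  obtain ⟨K, hK⟩ := exists_nat_gt B
  refine eventually_atTop.2 ⟨K, fun N hN h => ?_⟩
  have h1 : ((N : ℕ) : ℝ) ≤ B := hB h
  have h2 : (K : ℝ) ≤ (N : ℝ) := by exact_mod_cast hN
  linarith

theorem sh_ne (p : ℝ[X]) (hp : p ≠ 0) : sh p ≠ 0 := by
  intro h
  apply hp
  refine zero_of_ev p ?_
  refine eventually_atTop.2 ⟨1, fun N hN => ?_⟩
  obtain ⟨k, rfl⟩ : ∃ k, N = k + 1 := ⟨N - 1, by omega⟩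
  have h1 : (sh p).eval (k : ℝ) = 0 := by rw [h]; simp
  rw [sh_eval] at h1
  push_cast
  exact h1

/-- A 1-periodic quotient is constant. -/
theorem per (P Q : ℝ[X]) (hP : P ≠ 0) (h : P * sh Q = sh P * Q) : ∃ c : ℝ, Q = C c * P := by
  obtain ⟨N₀, hN⟩ := eventually_atTop.1 (ne_ev P hP)
  refine ⟨Q.eval (N₀ : ℝ) / P.eval (N₀ : ℝ), ?_⟩
  refine eq_of_ev _ _ (eventually_atTop.2 ⟨N₀, fun N hNN => ?_⟩)
  have key : ∀ k : ℕ, Q.eval ((N₀ + k : ℕ) : ℝ) / P.eval ((N₀ + k : ℕ) : ℝ)
      = Q.eval (N₀ : ℝ) / P.eval (N₀ : ℝ) := by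
    intro k
    induction k with
    | zero => simp
    | succ k ih =>
      rw [← ih]
      have h1 := congrArg (eval ((N₀ + k : ℕ) : ℝ)) h
      rw [eval_mul, eval_mul, sh_eval, sh_eval] at h1
      have e1 : P.eval ((N₀ + k : ℕ) : ℝ) ≠ 0 := hN _ (by omega)
      have e2 : P.eval ((N₀ + (k + 1) : ℕ) : ℝ) ≠ 0 := hN _ (by omega)
      have e3 : ((N₀ + (k + 1) : ℕ) : ℝ) = ((N₀ + k : ℕ) : ℝ) + 1 := by push_cast; ring
      rw [e3] at e2 ⊢
      rw [div_eq_div_iff e2 e1]
      linarith
  obtain ⟨k, rfl⟩ : ∃ k, N = N₀ + k := ⟨N - N₀, by omega⟩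
  have e1 : P.eval ((N₀ + k : ℕ) : ℝ) ≠ 0 := hN _ (by omega)
  rw [eval_mul, eval_C, ← key k]
  field_simp

/-- The roots `0` and `-1` are excluded. -/
theorem roots (q : ℝ[X]) (M : ℕ) (hq : q ≠ 0) (h1 : q ∣ (X + 1) ^ M * sh q)
    (h2 : sh q ∣ (X + 1) ^ M * q) : q.eval (-1) ≠ 0 ∧ q.eval 0 ≠ 0 := by
  have up : ∀ a : ℝ, q.eval a = 0 → a ≠ -1 → q.eval (a + 1) = 0 := by
    intro a ha hne
    obtain ⟨r, hr⟩ := h1
    have h3 := congrArg (eval a) hr
    rw [eval_mul, eval_mul, sh_eval, ha, zero_mul] at h3
    rcases mul_eq_zero.1 h3 with h4 | h4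
    · exfalso
      rw [eval_pow, eval_add, eval_X, eval_one] at h4
      have h6 : a + 1 = 0 := by
        exact pow_eq_zero_iff (n := M) (by
          rintro rfl
          simp at h4) |>.1 h4
      exact hne (by linarith)
    · exact h4
  have dn : ∀ a : ℝ, q.eval a = 0 → a ≠ 0 → q.eval (a - 1) = 0 := by
    intro a ha hne
    obtain ⟨r, hr⟩ := h2
    have h3 := congrArg (eval (a - 1)) hr
    rw [eval_mul, eval_mul, sh_eval, sub_add_cancel, ha, zero_mul] at h3
    rcases mul_eq_zero.1 h3 with h4 | h4
    · exfalso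
      rw [eval_pow, eval_add, eval_X, eval_one] at h4
      have h6 : a - 1 + 1 = 0 := by
        exact pow_eq_zero_iff (n := M) (by
          rintro rfl
          simp at h4) |>.1 h4
      exact hne (by linarith)
    · exact h4
  constructor
  · intro h
    apply hq
    refine Polynomial.eq_zero_of_infinite_isRoot q ?_
    have hinf : (Set.range (fun k : ℕ => -1 - (k : ℝ))).Infinite := by
      refine Set.infinite_range_of_injective ?_
      intro a b hab
      have h2 : -1 - (a : ℝ) = -1 - (b : ℝ) := hab
      have h3 : (a : ℝ) = (b : ℝ) := by linarith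
      exact_mod_cast h3
    refine hinf.mono ?_
    rintro x ⟨k, rfl⟩
    have : ∀ k : ℕ, q.eval (-1 - (k : ℝ)) = 0 := by
      intro k
      induction k with
      | zero => simpa using h
      | succ k ih =>
        have h3 := dn _ ih (by
          have : (0 : ℝ) ≤ (k : ℝ) := Nat.cast_nonneg k
          intro h4; linarith)
        have h4 : -1 - ((k + 1 : ℕ) : ℝ) = -1 - (k : ℝ) - 1 := by push_cast; ring
        rw [h4]; exact h3
    exact this k
  · intro h
    apply hq
    refine zero_of_ev q (Eventually.of_forall ?_)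
    intro k
    induction k with
    | zero => simpa using h
    | succ k ih =>
      have h3 := up _ ih (by
        have : (0 : ℝ) ≤ (k : ℝ) := Nat.cast_nonneg k
        intro h4; linarith)
      push_cast
      exact h3

theorem X1_eq : (X + 1 : ℝ[X]) = X - C (-1) := by simp

theorem cop_X1 (q : ℝ[X]) (h : q.eval (-1) ≠ 0) : IsCoprime (X + 1 : ℝ[X]) q := by
  rw [X1_eq]
  refine (Polynomial.irreducible_X_sub_C (-1 : ℝ)).coprime_iff_not_dvd.2 ?_
  intro h2
  exact h (Polynomial.dvd_iff_isRoot.1 h2)

/-- The coefficients of a vanishing combination of powers of `X + 1` vanish. -/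
theorem coef_zero (M : ℕ) (c : ℕ → ℝ)
    (h : ∑ n ∈ range (M + 1), C (c n) * (X + 1 : ℝ[X]) ^ (M - n) = 0) : ∀ n ≤ M, c n = 0 := by
  intro n hn
  have h1 := congrArg (fun p : ℝ[X] => p.comp (X - 1)) h
  simp only [Polynomial.sum_comp, Polynomial.mul_comp, C_comp, pow_comp, add_comp, X_comp, one_comp,
    zero_comp, sub_add_cancel] at h1
  have h2 := congrArg (fun p : ℝ[X] => p.coeff (M - n)) h1
  simp only [Polynomial.finsetSum_coeff, coeff_C_mul_X_pow, coeff_zero] at h2
  rw [Finset.sum_eq_single n] at h2
  · simpa using h2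
  · intro b hb hbn
    rw [Finset.mem_range] at hb
    rw [if_neg (by omega)]
  · intro hb
    exfalso
    exact hb (Finset.mem_range.2 (by omega))

/-- The pole lemma. -/
theorem pole (P p : ℝ[X]) (hP : P ≠ 0) (M : ℕ) (c : ℕ → ℝ) (hc : c 0 = 0)
    (h : (X + 1) ^ M * (P * sh p - sh P * p)
      + P * sh P * ∑ n ∈ range (M + 1), C (c n) * (X + 1 : ℝ[X]) ^ (M - n) = 0) :
    ∀ n ≤ M, c n = 0 := by
  have hgl : ∃ g : ℝ[X], g ∣ p ∧ g ∣ P ∧ g ≠ 0 ∧ IsCoprime (p / g) (P / g) := by
    refine ⟨GCDMonoid.gcd p P, GCDMonoid.gcd_dvd_left p P, GCDMonoid.gcd_dvd_right p P, ?_,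
      isCoprime_div_gcd_div_gcd hP⟩
    intro h0
    exact hP ((gcd_eq_zero_iff p P).1 h0).2
  obtain ⟨g, ⟨p', hp'⟩, ⟨q, hq⟩, hg0, hcop⟩ := hgl
  rw [hp', hq, mul_div_cancel_left₀ _ hg0,
    mul_div_cancel_left₀ _ hg0] at hcop
  have hq0 : q ≠ 0 := by
    rintro rfl
    exact hP (by rw [hq, mul_zero])
  have hcop2 : IsCoprime (sh p') (sh q) := by
    obtain ⟨a, b, hab⟩ := hcop
    refine ⟨sh a, sh b, ?_⟩
    rw [← sh_mul, ← sh_mul, ← sh_add, hab]
    simp [sh]
  set S := ∑ n ∈ range (M + 1), C (c n) * (X + 1 : ℝ[X]) ^ (M - n) with hS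
  have hE : (X + 1) ^ M * (q * sh p' - sh q * p') + q * sh q * S = 0 := by
    rw [hp', hq, sh_mul, sh_mul] at h
    have h1 : (g * sh g) * ((X + 1) ^ M * (q * sh p' - sh q * p') + q * sh q * S) = 0 := by
      linear_combination h
    exact (mul_eq_zero.1 h1).resolve_left (mul_ne_zero hg0 (sh_ne g hg0))
  have d1 : q ∣ (X + 1) ^ M * sh q := by
    refine hcop.symm.dvd_of_dvd_mul_right (?_ : q ∣ ((X + 1) ^ M * sh q) * p')
    refine ⟨(X + 1) ^ M * sh p' + sh q * S, ?_⟩
    linear_combination (-1) * hE
  have d2 : sh q ∣ (X + 1) ^ M * q := by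
    refine hcop2.symm.dvd_of_dvd_mul_right (?_ : sh q ∣ ((X + 1) ^ M * q) * sh p')
    refine ⟨(X + 1) ^ M * p' - q * S, ?_⟩
    linear_combination hE
  obtain ⟨r1, r0⟩ := roots q M hq0 d1 d2
  have c1 : IsCoprime ((X + 1 : ℝ[X]) ^ M) (q * sh q) := by
    refine IsCoprime.pow_left ?_
    refine IsCoprime.mul_right (cop_X1 q r1) (cop_X1 (sh q) ?_)
    rw [sh_eval]
    simpa using r0
  have d3 : (X + 1 : ℝ[X]) ^ M ∣ S := by
    refine c1.dvd_of_dvd_mul_left ?_
    refine ⟨-(q * sh p' - sh q * p'), ?_⟩
    linear_combination hE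
  intro n hn
  rcases Nat.eq_zero_or_pos M with hM | hM
  · have : n = 0 := by omega
    rw [this, hc]
  have hX : (X + 1 : ℝ[X]).natDegree = 1 := by
    have := natDegree_X_add_C (1 : ℝ)
    simpa using this
  have hdeg : S.natDegree ≤ M - 1 := by
    refine Polynomial.natDegree_sum_le_of_forall_le _ _ ?_
    intro k hk
    rw [Finset.mem_range] at hk
    rcases Nat.eq_zero_or_pos k with hk0 | hk0
    · rw [hk0, hc]; simp
    · refine (natDegree_C_mul_le _ _).trans ?_
      rw [natDegree_pow, hX]
      omega
  have hS0 : S = 0 := by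
    refine Polynomial.eq_zero_of_dvd_of_natDegree_lt d3 ?_
    rw [natDegree_pow, hX]
    omega
  exact coef_zero M c hS0 n hn

/-! ### Combinations of words with polynomial coefficients -/

/-- Finite formal combinations of words with polynomial coefficients. -/
abbrev FP := List ℕ →₀ ℝ[X]

/-- The value at `N` of a combination. -/
noncomputable def ev (N : ℕ) : FP →+ ℝ :=
  Finsupp.liftAddHom (fun w => (AddMonoidHom.mulRight (z w N)).comp
    (Polynomial.evalRingHom (N : ℝ)).toAddMonoidHom)

theorem ev_single (N : ℕ) (w : List ℕ) (p : ℝ[X]) :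
    ev N (Finsupp.single w p) = p.eval (N : ℝ) * z w N := by
  simp [ev]

theorem ev_smul (N : ℕ) (c : ℝ[X]) (F : FP) : ev N (c • F) = c.eval (N : ℝ) * ev N F := by
  induction F using Finsupp.induction_linear with
  | zero => simp
  | add f g hf hg => rw [smul_add, map_add, map_add, hf, hg, mul_add]
  | single w p => rw [Finsupp.smul_single, ev_single, ev_single, smul_eq_mul, eval_mul, mul_assoc]

theorem z_cons_succ (n : ℕ) (w : List ℕ) (N : ℕ) :
    z (n :: w) (N + 1) = z (n :: w) N + z w N / ((N : ℝ) + 1) ^ n := by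
  simp only [z]
  rw [Finset.sum_range_succ]

/-- The contribution of the tail. -/
noncomputable def tl (M : ℕ) : List ℕ → ℝ[X] → FP
  | [], _ => 0
  | n :: v, p => if n ≤ M then Finsupp.single v ((X + 1) ^ (M - n) * sh p) else 0

theorem tl_zero (M : ℕ) (w : List ℕ) : tl M w 0 = 0 := by
  cases w with
  | nil => rfl
  | cons n v => simp [tl, sh_zero]

theorem tl_add (M : ℕ) (w : List ℕ) (p q : ℝ[X]) : tl M w (p + q) = tl M w p + tl M w q := by
  cases w with
  | nil => simp [tl]
  | cons n v =>
    simp only [tl]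
    split_ifs
    · rw [sh_add, mul_add, Finsupp.single_add]
    · simp

/-- The shift, multiplied by `(X + 1) ^ M`. -/
noncomputable def Sh (M : ℕ) : FP →+ FP := Finsupp.liftAddHom (fun w =>
  { toFun := fun p => Finsupp.single w ((X + 1) ^ M * sh p) + tl M w p
    map_zero' := by rw [sh_zero, mul_zero, Finsupp.single_zero, tl_zero, add_zero]
    map_add' := fun p q => by
      rw [sh_add, mul_add, Finsupp.single_add, tl_add]
      abel })

theorem Sh_single (M : ℕ) (w : List ℕ) (p : ℝ[X]) :
    Sh M (Finsupp.single w p) = Finsupp.single w ((X + 1) ^ M * sh p) + tl M w p :=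
  Finsupp.liftAddHom_apply_single _ _ _

theorem Sh_apply (M : ℕ) (F : FP) (u : List ℕ) : Sh M F u = (X + 1) ^ M * sh (F u)
    + ∑ n ∈ range (M + 1), (X + 1) ^ (M - n) * sh (F (n :: u)) := by
  induction F using Finsupp.induction_linear with
  | zero => simp [sh_zero]
  | add f g hf hg =>
    rw [map_add, Finsupp.add_apply, hf, hg, Finsupp.add_apply, sh_add]
    have : ∀ n ∈ range (M + 1), (X + 1 : ℝ[X]) ^ (M - n) * sh ((f + g) (n :: u))
        = (X + 1) ^ (M - n) * sh (f (n :: u)) + (X + 1) ^ (M - n) * sh (g (n :: u)) := by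
      intro n _
      rw [Finsupp.add_apply, sh_add, mul_add]
    rw [Finset.sum_congr rfl this, Finset.sum_add_distrib]
    ring
  | single w p =>
    rw [Sh_single, Finsupp.add_apply]
    congr 1
    · by_cases h : w = u
      · rw [h, Finsupp.single_eq_same, Finsupp.single_eq_same]
      · rw [Finsupp.single_eq_of_ne' h, Finsupp.single_eq_of_ne' h, sh_zero, mul_zero]
    · cases w with
      | nil =>
        rw [Finset.sum_eq_zero]
        · simp [tl]
        · intro n _
          rw [Finsupp.single_eq_of_ne' (by simp), sh_zero, mul_zero]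
      | cons m v =>
        simp only [tl]
        by_cases hv : v = u
        · subst hv
          by_cases hm : m ≤ M
          · rw [if_pos hm, Finsupp.single_eq_same, Finset.sum_eq_single m]
            · rw [Finsupp.single_eq_same]
            · intro b _ hb
              rw [Finsupp.single_eq_of_ne' (by simp; omega), sh_zero, mul_zero]
            · intro hb
              exfalso
              exact hb (Finset.mem_range.2 (by omega))
          · rw [if_neg hm, Finset.sum_eq_zero]
            · simp
            · intro b hb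
              rw [Finset.mem_range] at hb
              rw [Finsupp.single_eq_of_ne' (by simp; omega), sh_zero, mul_zero]
        · rw [Finset.sum_eq_zero]
          · split_ifs
            · rw [Finsupp.single_eq_of_ne' hv]
            · simp
          · intro b _
            rw [Finsupp.single_eq_of_ne' (by simp; intro _; exact hv), sh_zero, mul_zero]

theorem ev_Sh (M N : ℕ) (F : FP) (hF : ∀ w ∈ F.support, ∀ n ∈ w, n ≤ M) :
    ev N (Sh M F) = ((N : ℝ) + 1) ^ M * ev (N + 1) F := by
  have hs : F = ∑ w ∈ F.support, Finsupp.single w (F w) := (Finsupp.sum_single F).symm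
  rw [hs, map_sum, map_sum, map_sum, Finset.mul_sum]
  refine Finset.sum_congr rfl ?_
  intro w hw
  rw [Sh_single, map_add, ev_single, ev_single, eval_mul, sh_eval, eval_pow, eval_add, eval_X,
    eval_one]
  push_cast
  cases w with
  | nil => simp [tl, z]
  | cons m v =>
    have hm : m ≤ M := hF _ hw m (by simp)
    simp only [tl]
    rw [if_pos hm, ev_single, z_cons_succ, eval_mul, sh_eval, eval_pow, eval_add, eval_X, eval_one]
    have hpos : ((N : ℝ) + 1) ≠ 0 := by positivity
    have e1 : ((N : ℝ) + 1) ^ M = ((N : ℝ) + 1) ^ (M - m) * ((N : ℝ) + 1) ^ m := by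
      rw [← pow_add]; congr 1; omega
    rw [e1]
    field_simp

theorem sh_scale (c : ℝ) (p : ℝ[X]) : sh (C c * p) = C c * sh p := by
  rw [sh_mul, sh_C]

/-- The main induction. -/
theorem main (d : ℕ) : ∀ F : FP, (∀ w ∈ F.support, w.length < d) →
    (∀ w ∈ F.support, ∀ n ∈ w, 1 ≤ n) → (∀ᶠ N : ℕ in atTop, ev N F = 0) → F = 0 := by
  induction d with
  | zero =>
    intro F hF _ _
    refine Finsupp.support_eq_empty.1 ?_
    refine Finset.eq_empty_of_forall_notMem ?_
    intro w hw
    exact absurd (hF w hw) (Nat.not_lt_zero _)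
  | succ d IH =>
    suffices H : ∀ t : ℕ, ∀ F : FP, (F.support.filter (fun w => w.length = d)).card ≤ t →
        (∀ w ∈ F.support, w.length < d + 1) →
        (∀ w ∈ F.support, ∀ n ∈ w, 1 ≤ n) → (∀ᶠ N : ℕ in atTop, ev N F = 0) → F = 0 by
      intro F h1 h2 h3
      exact H _ F le_rfl h1 h2 h3
    intro t
    induction t with
    | zero =>
      intro F hcard h1 h2 h3
      refine IH F ?_ h2 h3
      intro w hw
      have h4 := h1 w hw
      have h5 : F.support.filter (fun w => w.length = d) = ∅ :=
        Finset.card_eq_zero.1 (Nat.le_zero.1 hcard)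
      have h6 : w.length ≠ d := by
        intro h7
        have : w ∈ F.support.filter (fun w => w.length = d) := Finset.mem_filter.2 ⟨hw, h7⟩
        rw [h5] at this
        exact absurd this (Finset.notMem_empty _)
      omega
    | succ t IHt =>
      intro F hcard h1 h2 h3
      by_cases hex : ∃ w ∈ F.support, w.length = d
      swap
      · refine IH F ?_ h2 h3
        intro w hw
        have h4 := h1 w hw
        have h6 : w.length ≠ d := fun h7 => hex ⟨w, hw, h7⟩
        omega
      obtain ⟨w₀, hw₀, hlen₀⟩ := hex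
      have hP : F w₀ ≠ 0 := Finsupp.mem_support_iff.1 hw₀
      -- a bound for the letters
      obtain ⟨M, hM⟩ : ∃ M : ℕ, ∀ w ∈ F.support, ∀ n ∈ w, n ≤ M := by
        refine ⟨∑ w ∈ F.support, w.sum, ?_⟩
        intro w hw n hn
        refine (List.single_le_sum (by simp) n hn).trans ?_
        exact Finset.single_le_sum (f := fun w : List ℕ => w.sum) (fun _ _ => Nat.zero_le _) hw
      have hlong : ∀ u : List ℕ, d + 1 ≤ u.length → F u = 0 := by
        intro u hu
        by_contra hne
        have := h1 u (Finsupp.mem_support_iff.2 hne)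
        omega
      set G : FP := (F w₀) • Sh M F - ((X + 1) ^ M * sh (F w₀)) • F with hG
      have hGa : ∀ u, G u = F w₀ * ((X + 1) ^ M * sh (F u)
          + ∑ n ∈ range (M + 1), (X + 1) ^ (M - n) * sh (F (n :: u)))
          - (X + 1) ^ M * sh (F w₀) * F u := by
        intro u
        rw [hG, Finsupp.sub_apply, Finsupp.smul_apply, Finsupp.smul_apply, Sh_apply, smul_eq_mul,
          smul_eq_mul]
      have hGsupp : ∀ u ∈ G.support, F u ≠ 0 ∨ ∃ n, F (n :: u) ≠ 0 := by
        intro u hu
        by_contra hcon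
        push Not at hcon
        obtain ⟨hc1, hc2⟩ := hcon
        refine (Finsupp.mem_support_iff.1 hu) ?_
        rw [hGa, hc1, sh_zero, mul_zero, mul_zero, sub_zero, Finset.sum_eq_zero, add_zero, mul_zero]
        intro n _
        rw [hc2 n, sh_zero, mul_zero]
      have hGtop : ∀ u : List ℕ, u.length = d → G u = (X + 1) ^ M * (F w₀ * sh (F u) - sh (F w₀) * F u) := by
        intro u hu
        rw [hGa, Finset.sum_eq_zero]
        · ring
        · intro n _
          rw [hlong (n :: u) (by simp [hu]), sh_zero, mul_zero]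
      have hG0 : G = 0 := by
        refine IHt G ?_ ?_ ?_ ?_
        · have hsub : G.support.filter (fun w => w.length = d)
              ⊆ (F.support.filter (fun w => w.length = d)).erase w₀ := by
            intro u hu
            rw [Finset.mem_filter] at hu
            obtain ⟨hu1, hu2⟩ := hu
            have hu3 := Finsupp.mem_support_iff.1 hu1
            rw [hGtop u hu2] at hu3
            refine Finset.mem_erase.2 ⟨?_, Finset.mem_filter.2 ⟨Finsupp.mem_support_iff.2 ?_, hu2⟩⟩
            · rintro rfl
              apply hu3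
              ring
            · intro h0
              apply hu3
              rw [h0, sh_zero]
              ring
          have hc := Finset.card_le_card hsub
          have hmem : w₀ ∈ F.support.filter (fun w => w.length = d) :=
            Finset.mem_filter.2 ⟨hw₀, hlen₀⟩
          rw [Finset.card_erase_of_mem hmem] at hc
          omega
        · intro u hu
          rcases hGsupp u hu with h4 | ⟨n, h4⟩
          · exact h1 u (Finsupp.mem_support_iff.2 h4)
          · have := h1 _ (Finsupp.mem_support_iff.2 h4)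
            rw [List.length_cons] at this
            omega
        · intro u hu m hm
          rcases hGsupp u hu with h4 | ⟨n, h4⟩
          · exact h2 u (Finsupp.mem_support_iff.2 h4) m hm
          · exact h2 _ (Finsupp.mem_support_iff.2 h4) m (List.mem_cons_of_mem _ hm)
        · have h3' : ∀ᶠ N : ℕ in atTop, ev (N + 1) F = 0 :=
            (tendsto_add_atTop_nat 1).eventually h3
          filter_upwards [h3, h3'] with N hN hN'
          rw [hG, map_sub, ev_smul, ev_smul, ev_Sh M N F hM, hN, hN']
          ring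
      -- all top coefficients are constant multiples of `F w₀`
      have hX1 : (X + 1 : ℝ[X]) ^ M ≠ 0 := by
        refine pow_ne_zero _ ?_
        rw [X1_eq]
        exact X_sub_C_ne_zero _
      have hprop : ∀ u : List ℕ, u.length = d → ∃ c : ℝ, F u = C c * F w₀ := by
        intro u hu
        refine per (F w₀) (F u) hP ?_
        have h4 := hGtop u hu
        rw [hG0, Finsupp.zero_apply] at h4
        have h5 := (mul_eq_zero.1 h4.symm).resolve_left hX1
        exact sub_eq_zero.1 h5
      -- the case of the empty word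
      rcases Nat.eq_zero_or_pos d with hd | hd
      · exfalso
        apply hP
        refine zero_of_ev _ ?_
        have hw0' : w₀ = [] := List.length_eq_zero_iff.1 (by rw [hlen₀, hd])
        have hFs : F = Finsupp.single [] (F w₀) := by
          ext1 u
          by_cases hu : u = []
          · rw [hu, Finsupp.single_eq_same, hw0']
          · rw [Finsupp.single_eq_of_ne (by exact hu)]
            refine hlong u ?_
            have := List.length_pos_iff.2 hu
            omega
        filter_upwards [h3] with N hN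
        rw [hFs, ev_single] at hN
        simpa [z] using hN
      · exfalso
        obtain ⟨n₀, v, hw₀v⟩ : ∃ n₀ v, w₀ = n₀ :: v := by
          cases w₀ with
          | nil => simp at hlen₀; omega
          | cons a b => exact ⟨a, b, rfl⟩
        have hvlen : v.length + 1 = d := by
          rw [← hlen₀, hw₀v, List.length_cons]
        choose! c hc using hprop
        set c' : ℕ → ℝ := fun n => if n = 0 then 0 else c (n :: v) with hc'
        have hFn : ∀ n, F (n :: v) = C (c' n) * F w₀ := by
          intro n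
          by_cases hn : n = 0
          · rw [hc']
            simp only [hn, if_true, C_0, zero_mul]
            by_contra hne
            have := h2 _ (Finsupp.mem_support_iff.2 hne) 0 (by simp)
            omega
          · rw [hc']
            simp only [hn, if_false]
            exact hc (n :: v) (by simp [hvlen])
        have hGv := hGa v
        rw [hG0, Finsupp.zero_apply] at hGv
        have hsum : ∑ n ∈ range (M + 1), (X + 1 : ℝ[X]) ^ (M - n) * sh (F (n :: v))
            = sh (F w₀) * ∑ n ∈ range (M + 1), C (c' n) * (X + 1 : ℝ[X]) ^ (M - n) := by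
          rw [Finset.mul_sum]
          refine Finset.sum_congr rfl ?_
          intro n _
          rw [hFn n, sh_scale]
          ring
        rw [hsum] at hGv
        have hpole := pole (F w₀) (F v) hP M c' (by simp [hc']) (by linear_combination (-1) * hGv)
        have hn₀ : n₀ ≤ M := hM w₀ hw₀ n₀ (by rw [hw₀v]; simp)
        have h8 := hpole n₀ hn₀
        have h9 := hFn n₀
        rw [h8, C_0, zero_mul, ← hw₀v] at h9
        exact hP h9

theorem t_IND : S_IND := by
  intro S hS P hP w hw
  set F : FP := Finsupp.onFinset S (fun w => if w ∈ S then P w else 0) (by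
    intro a ha
    by_contra h
    exact ha (if_neg h)) with hF
  have hFa : ∀ w, F w = if w ∈ S then P w else 0 := fun w => rfl
  have hsub : F.support ⊆ S := Finsupp.support_onFinset_subset
  have hev : ∀ N, ev N F = ∑ w ∈ S, (P w).eval (N : ℝ) * z w N := by
    intro N
    have h1 : ev N F = ∑ w ∈ F.support, (F w).eval (N : ℝ) * z w N := by
      conv_lhs => rw [← Finsupp.sum_single F]
      rw [Finsupp.sum, map_sum]
      refine Finset.sum_congr rfl ?_
      intro w _
      rw [ev_single]
    rw [h1, Finset.sum_subset hsub]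
    · refine Finset.sum_congr rfl ?_
      intro w hw
      rw [hFa, if_pos hw]
    · intro w _ hw
      rw [Finsupp.notMem_support_iff.1 hw]
      simp
  have hF0 : F = 0 := by
    refine main (∑ w ∈ S, w.length + 1) F ?_ ?_ ?_
    · intro w hw
      have := Finset.single_le_sum (f := fun w : List ℕ => w.length) (fun _ _ => Nat.zero_le _)
        (hsub hw)
      omega
    · intro w hw
      exact hS w (hsub hw)
    · filter_upwards [hP] with N hN
      rw [hev, hN]
  have h2 := hFa w
  rw [hF0, if_pos hw, Finsupp.zero_apply] at h2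
  exact h2.symm

end Pool.Agent.V7H30.DH
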