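import Mathlib
import Pool.Agent.V7H62.DH.Spec2
import Pool.Agent.V7H30.DH.IND

/-!
# Linear independence of the tails over the polynomials
-/

set_option autoImplicit false

open Filter Finset Polynomial

namespace Pool.Agent.V7H30.DH

open Pool.Agent.V7H62.DH

/-- The independence of the truncated values for finitely supported families. -/
theorem ind_fp (F : FP) (h2 : ∀ w ∈ F.support, ∀ n ∈ w, 1 ≤ n)
    (h3 : ∀ᶠ N : ℕ in atTop, ev N F = 0) : F = 0 := by
  refine main (∑ w ∈ F.support, w.length + 1) F ?_ h2 h3
  intro w hw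
  have := Finset.single_le_sum (f := fun w : List ℕ => w.length) (fun _ _ => Nat.zero_le _) hw
  omega

theorem t_INDT : S_INDT := by
  intro _ hTri S hS P hP w hw
  by_contra hne
  choose! T c hT hc using hTri
  set S' : Finset (List ℕ) := S.filter (fun w => P w ≠ 0) with hS'
  have hwS' : w ∈ S' := Finset.mem_filter.2 ⟨hw, hne⟩
  obtain ⟨w₀, hw₀, hmax⟩ := Finset.exists_max_image S' (fun w => w.length) ⟨w, hwS'⟩
  have hadm : ∀ w ∈ S', Adm w := fun w hw => hS w (Finset.mem_filter.1 hw).1
  set F : FP := ∑ w ∈ S', (P w) • (Finsupp.single w.reverse (C ((-1 : ℝ) ^ w.length))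
    + ∑ v ∈ T w, Finsupp.single v (C (c w v))) with hF
  have hev : ∀ N : ℕ, ev N F = ∑ w ∈ S, (P w).eval (N : ℝ) * t w N := by
    intro N
    rw [hF, map_sum]
    have h1 : ∀ w ∈ S', ev N ((P w) • (Finsupp.single w.reverse (C ((-1 : ℝ) ^ w.length))
        + ∑ v ∈ T w, Finsupp.single v (C (c w v)))) = (P w).eval (N : ℝ) * t w N := by
      intro w hw
      rw [ev_smul, map_add, map_sum, ev_single, eval_C, hc w (hadm w hw) N]
      congr 2
      refine Finset.sum_congr rfl ?_
      intro v _
      rw [ev_single, eval_C]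
    rw [Finset.sum_congr rfl h1]
    refine Finset.sum_subset (Finset.filter_subset _ _) ?_
    intro u hu hu'
    have : P u = 0 := by
      by_contra h
      exact hu' (Finset.mem_filter.2 ⟨hu, h⟩)
    rw [this]
    simp
  have hFa : ∀ u, F u = ∑ w ∈ S', P w * ((Finsupp.single w.reverse (C ((-1 : ℝ) ^ w.length)) : FP) u
      + ∑ v ∈ T w, (Finsupp.single v (C (c w v)) : FP) u) := by
    intro u
    rw [hF, Finsupp.finsetSum_apply]
    refine Finset.sum_congr rfl ?_
    intro w _
    rw [Finsupp.smul_apply, Finsupp.add_apply, Finsupp.finsetSum_apply, smul_eq_mul]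
  have hF0 : F = 0 := by
    refine ind_fp F ?_ ?_
    · intro u hu n hn
      have h1 := Finsupp.mem_support_iff.1 hu
      rw [hFa] at h1
      obtain ⟨w, hw, h2⟩ := Finset.exists_ne_zero_of_sum_ne_zero h1
      have h3 := right_ne_zero_of_mul h2
      by_cases h4 : w.reverse = u
      · refine (hadm w hw).1 n ?_
        rw [← List.mem_reverse, h4]
        exact hn
      · rw [Finsupp.single_eq_of_ne' h4, zero_add] at h3
        obtain ⟨v, hv, h5⟩ := Finset.exists_ne_zero_of_sum_ne_zero h3
        by_cases h6 : v = u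
        · rw [← h6] at hn
          exact (hT w (hadm w hw) v hv).2 n hn
        · exact absurd (Finsupp.single_eq_of_ne' h6) h5
    · filter_upwards [hP] with N hN
      rw [hev, hN]
  have h0 := hFa w₀.reverse
  rw [hF0, Finsupp.zero_apply, Finset.sum_eq_single_of_mem w₀ hw₀] at h0
  · rw [Finsupp.single_eq_same, Finset.sum_eq_zero, add_zero] at h0
    · have h1 : P w₀ ≠ 0 := (Finset.mem_filter.1 hw₀).2
      rcases mul_eq_zero.1 h0.symm with h2 | h2
      · exact h1 h2
      · rw [C_eq_zero] at h2
        exact absurd h2 (pow_ne_zero _ (by norm_num))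
    · intro v hv
      refine Finsupp.single_eq_of_ne' ?_
      rintro rfl
      have h3 := (hT w₀ (hadm w₀ hw₀) _ hv).1
      rw [List.length_reverse] at h3
      omega
  · intro u hu huw
    rw [Finsupp.single_eq_of_ne' (by
      intro h
      exact huw (List.reverse_injective h)), zero_add, Finset.sum_eq_zero, mul_zero]
    intro v hv
    refine Finsupp.single_eq_of_ne' ?_
    rintro rfl
    have h3 := (hT u (hadm u hu) _ hv).1
    rw [List.length_reverse] at h3
    have h4 := hmax u hu
    omega

end Pool.Agent.V7H30.DH
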